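import Mathlib

open Finset Polynomial

namespace Pool.Agent.Results.MP_f3603a_co.Del

open Classical

/-- `D` is an orientation of `G`: every edge is directed exactly one way. -/
def IsOrient {V : Type} (G : SimpleGraph V) (D : V → V → Prop) : Prop :=
  (∀ u v, G.Adj u v ↔ (D u v ∨ D v u)) ∧ ∀ u v, D u v → ¬ D v u

/-- number of `D`-descents of `σ`. -/
noncomputable def des {V : Type} [Fintype V] {n : ℕ} (D : V → V → Prop) (σ : V ≃ Fin n) : ℕ :=
  (univ.filter fun p : V × V => D p.1 p.2 ∧ σ p.2 < σ p.1).card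

/-- the Eulerian polynomial `A_D(t)`. -/
noncomputable def A {V : Type} [Fintype V] (D : V → V → Prop) : ℤ[X] :=
  ∑ σ : V ≃ Fin (Fintype.card V), X ^ des D σ

/-- `|A_D(-1)|`. -/
noncomputable def nu {V : Type} [Fintype V] (D : V → V → Prop) : ℤ := |(A D).eval (-1)|

section
variable {V : Type} [Fintype V]

noncomputable def f {n : ℕ} (σ : V ≃ Fin n) (p : V × V) : ℤ := if σ p.2 < σ p.1 then -1 else 1

noncomputable def arcs (D : V → V → Prop) : Finset (V × V) := univ.filter fun p => D p.1 p.2

noncomputable def s {n : ℕ} (D : V → V → Prop) (σ : V ≃ Fin n) : ℤ := ∏ p ∈ arcs D, f σ p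

lemma pow_des {n : ℕ} (D : V → V → Prop) (σ : V ≃ Fin n) : (-1 : ℤ) ^ des D σ = s D σ := by
  unfold s f des arcs
  rw [Finset.prod_ite, Finset.prod_const, Finset.prod_const_one, mul_one, Finset.filter_filter]

lemma eval_A (D : V → V → Prop) {n : ℕ} (h : Fintype.card V = n) :
    (A D).eval (-1) = ∑ σ : V ≃ Fin n, s D σ := by
  subst h
  unfold A
  rw [Polynomial.eval_finset_sum]
  refine Finset.sum_congr rfl fun σ _ => ?_
  rw [Polynomial.eval_pow, Polynomial.eval_X, pow_des]

omit [Fintype V] in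
lemma f_swap {n : ℕ} (σ : V ≃ Fin n) (p : V × V) (h : p.1 ≠ p.2) : f σ p.swap = - f σ p := by
  unfold f
  have : σ p.1 ≠ σ p.2 := fun e => h (σ.injective e)
  simp only [Prod.fst_swap, Prod.snd_swap]
  rcases lt_or_gt_of_ne this with h1 | h1
  · rw [if_pos h1, if_neg (not_lt.2 h1.le)]
  · rw [if_neg (not_lt.2 h1.le), if_pos h1]; simp

lemma indep {G : SimpleGraph V} {D D' : V → V → Prop} (h : IsOrient G D) (h' : IsOrient G D') :
    nu D' = nu D := by
  have key : ∀ σ : V ≃ Fin (Fintype.card V),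
      s D' σ = (∏ p ∈ arcs D, (if D' p.1 p.2 then (1 : ℤ) else -1)) * s D σ := by
    intro σ
    unfold s
    rw [← Finset.prod_mul_distrib]
    symm
    refine Finset.prod_nbij' (fun p => if D' p.1 p.2 then p else p.swap)
      (fun p => if D p.1 p.2 then p else p.swap) ?_ ?_ ?_ ?_ ?_
    · intro p hp
      simp only [arcs, mem_filter, mem_univ, true_and] at hp ⊢
      split_ifs with h1
      · exact h1
      · have := (h'.1 p.1 p.2).1 ((h.1 p.1 p.2).2 (Or.inl hp))
        simpa [h1] using this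
    · intro p hp
      simp only [arcs, mem_filter, mem_univ, true_and] at hp ⊢
      split_ifs with h1
      · exact h1
      · have := (h.1 p.1 p.2).1 ((h'.1 p.1 p.2).2 (Or.inl hp))
        simpa [h1] using this
    · intro p hp
      simp only [arcs, mem_filter, mem_univ, true_and] at hp
      by_cases h1 : D' p.1 p.2
      · simp [h1, hp]
      · simp [h1, h.2 _ _ hp]
    · intro p hp
      simp only [arcs, mem_filter, mem_univ, true_and] at hp
      by_cases h1 : D p.1 p.2
      · simp [h1, hp]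
      · simp [h1, h'.2 _ _ hp]
    · intro p hp
      simp only [arcs, mem_filter, mem_univ, true_and] at hp
      have hne : p.1 ≠ p.2 := ((h.1 p.1 p.2).2 (Or.inl hp)).ne
      by_cases h1 : D' p.1 p.2
      · simp [h1]
      · simp [h1, f_swap σ p hne]
  unfold nu
  rw [eval_A D rfl, eval_A D' rfl]
  simp only [key]
  rw [← Finset.mul_sum, abs_mul, Finset.abs_prod]
  have : ∏ p ∈ arcs D, |(if D' p.1 p.2 then (1 : ℤ) else -1)| = 1 := by
    refine Finset.prod_eq_one fun p _ => ?_
    split_ifs <;> simp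
  rw [this, one_mul]

lemma card_inc {G : SimpleGraph V} {D : V → V → Prop} (h : IsOrient G D) (w : V) :
    ((arcs D).filter fun p => p.1 = w ∨ p.2 = w).card = G.degree w := by
  rw [← SimpleGraph.card_neighborFinset_eq_degree]
  refine Finset.card_nbij' (fun p => if p.1 = w then p.2 else p.1)
    (fun u => if D w u then (w, u) else (u, w)) ?_ ?_ ?_ ?_
  · intro p hp
    simp only [arcs, coe_filter, mem_filter, mem_univ, true_and, Set.mem_setOf_eq] at hp
    have hadj := (h.1 p.1 p.2).2 (Or.inl hp.1)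
    simp only [SimpleGraph.coe_neighborFinset, SimpleGraph.mem_neighborSet]
    split_ifs with h1
    · rw [← h1]; exact hadj
    · rcases hp.2 with h2 | h2
      · exact absurd h2 h1
      · rw [← h2]; exact hadj.symm
  · intro u hu
    simp only [SimpleGraph.coe_neighborFinset, SimpleGraph.mem_neighborSet] at hu
    simp only [arcs, coe_filter, mem_filter, mem_univ, true_and, Set.mem_setOf_eq]
    split_ifs with h1
    · exact ⟨h1, Or.inl rfl⟩
    · have := (h.1 w u).1 hu
      exact ⟨by simpa [h1] using this, Or.inr rfl⟩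
  · intro p hp
    simp only [arcs, coe_filter, mem_filter, mem_univ, true_and, Set.mem_setOf_eq] at hp
    obtain ⟨a, b⟩ := p
    obtain ⟨h1, h2⟩ := hp
    simp only at h1 h2
    have hne : a ≠ b := ((h.1 a b).2 (Or.inl h1)).ne
    rcases h2 with rfl | rfl
    · simp [h1]
    · simp [hne, h.2 _ _ h1]
  · intro u hu
    simp only [SimpleGraph.coe_neighborFinset, SimpleGraph.mem_neighborSet] at hu
    by_cases h1 : D w u
    · simp [h1]
    · simp [h1, hu.ne']

lemma f_sq {n : ℕ} (σ : V ≃ Fin n) (p : V × V) : f σ p * f σ p = 1 := by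
  unfold f; split_ifs <;> simp

lemma s_rot {G : SimpleGraph V} {D : V → V → Prop} (h : IsOrient G D)
    (he : ∀ v, Even (G.degree v)) {m : ℕ} (σ : V ≃ Fin (m + 1)) :
    s D (σ.trans (finRotate (m + 1))) = s D σ := by
  set w := σ.symm (Fin.last m) with hw
  have hσw : σ w = Fin.last m := by simp [hw]
  have key : ∀ p ∈ arcs D, f (σ.trans (finRotate (m + 1))) p
      = (if p.1 = w ∨ p.2 = w then -1 else 1) * f σ p := by
    intro p hp
    simp only [arcs, mem_filter, mem_univ, true_and] at hp
    have hne : p.1 ≠ p.2 := ((h.1 p.1 p.2).2 (Or.inl hp)).ne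
    have hl : ∀ u, u ≠ w → σ u ≠ Fin.last m := fun u hu e => hu (σ.injective (e.trans hσw.symm))
    have hv : ∀ u, u ≠ w → ((σ u + 1 : Fin (m + 1)) : ℕ) = σ u + 1 := fun u hu =>
      Fin.val_add_one_of_lt (Fin.lt_last_iff_ne_last.2 (hl u hu))
    have hlt : ∀ u, u ≠ w → (σ u : ℕ) < m := fun u hu => by
      have := Fin.lt_last_iff_ne_last.2 (hl u hu)
      simpa [Fin.lt_def] using this
    have h0 : ((σ w + 1 : Fin (m + 1)) : ℕ) = 0 := by rw [hσw]; simp
    have hm : ((σ w : Fin (m + 1)) : ℕ) = m := by rw [hσw]; simp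
    unfold f
    simp only [Equiv.trans_apply, finRotate_succ_apply, Fin.lt_def]
    by_cases h1 : p.1 = w
    · have h2 : p.2 ≠ w := fun e => hne (h1.trans e.symm)
      have := hv _ h2
      have := hlt _ h2
      rw [h1, h0, hm, if_neg (by omega), if_pos (Or.inl rfl), if_pos (by omega)]
      simp
    · by_cases h2 : p.2 = w
      · have := hv _ h1
        have := hlt _ h1
        rw [h2, h0, hm, if_pos (by omega), if_pos (Or.inr rfl), if_neg (by omega)]
        simp
      · rw [hv _ h1, hv _ h2, if_neg (show ¬ (p.1 = w ∨ p.2 = w) by tauto)]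
        simp
  unfold s
  rw [Finset.prod_congr rfl key, Finset.prod_mul_distrib, Finset.prod_ite, Finset.prod_const,
    Finset.prod_const_one, card_inc h w, (he w).neg_one_pow]
  simp

noncomputable def S (D : V → V → Prop) {n : ℕ} (v : V) (i : Fin n) : ℤ :=
  ∑ σ ∈ univ.filter (fun σ : V ≃ Fin n => σ v = i), s D σ

lemma S_succ {G : SimpleGraph V} {D : V → V → Prop} (h : IsOrient G D)
    (he : ∀ v, Even (G.degree v)) {m : ℕ} (v : V) (i : Fin (m + 1)) :
    S D v (i + 1) = S D v i := by
  unfold S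
  symm
  refine Finset.sum_nbij' (fun σ => σ.trans (finRotate (m + 1)))
    (fun σ => σ.trans (finRotate (m + 1)).symm) ?_ ?_ ?_ ?_ ?_
  · intro σ hσ
    simp only [mem_filter, mem_univ, true_and] at hσ ⊢
    simp [hσ]
  · intro σ hσ
    simp only [mem_filter, mem_univ, true_and] at hσ ⊢
    simp only [Equiv.trans_apply, hσ]
    rw [Equiv.symm_apply_eq, finRotate_succ_apply]
  · intro σ _
    ext x; simp
  · intro σ _
    ext x; simp
  · intro σ _
    exact (s_rot h he σ).symm

lemma S_const {G : SimpleGraph V} {D : V → V → Prop} (h : IsOrient G D)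
    (he : ∀ v, Even (G.degree v)) {m : ℕ} (v : V) (i : Fin (m + 1)) :
    S D v i = S D v (0 : Fin (m + 1)) := by
  induction i using Fin.induction with
  | zero => rfl
  | succ j ih => rw [← ih, ← S_succ h he v j.castSucc, Fin.coeSucc_eq_succ]

lemma total {G : SimpleGraph V} {D : V → V → Prop} (h : IsOrient G D)
    (he : ∀ v, Even (G.degree v)) {m : ℕ} (v : V) :
    ∑ σ : V ≃ Fin (m + 1), s D σ = (m + 1) * S D v (Fin.last m) := by
  rw [← Finset.sum_fiberwise (s := univ) (g := fun σ : V ≃ Fin (m + 1) => σ v)]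
  have : ∀ i : Fin (m + 1), ∑ σ ∈ univ.filter (fun σ : V ≃ Fin (m + 1) => σ v = i), s D σ
      = S D v (Fin.last m) := fun i => by
    rw [S_const h he v (Fin.last m), ← S_const h he v i]; rfl
  simp only [this]
  simp

/-- extend a labelling of `V - v` by giving `v` the last label. -/
noncomputable def ext' {m : ℕ} (v : V) (τ : {u : V // u ≠ v} ≃ Fin m) : V ≃ Fin (m + 1) :=
  (Equiv.optionSubtypeNe v).symm.trans ((Equiv.optionCongr τ).trans finSuccEquivLast.symm)

omit [Fintype V] in
lemma ext_self {m : ℕ} (v : V) (τ : {u : V // u ≠ v} ≃ Fin m) : ext' v τ v = Fin.last m := by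
  simp [ext']

omit [Fintype V] in
lemma ext_ne {m : ℕ} (v : V) (τ : {u : V // u ≠ v} ≃ Fin m) (u : V) (hu : u ≠ v) :
    ext' v τ u = (τ ⟨u, hu⟩).castSucc := by
  simp [ext', Equiv.optionSubtypeNe_symm_of_ne hu]

lemma s_ext {D : V → V → Prop} (hD : ∀ u, ¬ D u u) {m : ℕ} (v : V)
    (τ : {u : V // u ≠ v} ≃ Fin m) :
    s D (ext' v τ) = (∏ p ∈ (arcs D).filter (fun p => p.1 = v ∨ p.2 = v),
      (if p.1 = v then (-1 : ℤ) else 1)) * s (fun a b : {u : V // u ≠ v} => D a b) τ := by
  unfold s
  rw [← Finset.prod_filter_mul_prod_filter_not (arcs D) (fun p => p.1 = v ∨ p.2 = v)]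
  congr 1
  · refine Finset.prod_congr rfl fun p hp => ?_
    simp only [arcs, mem_filter, mem_univ, true_and] at hp
    have hne : p.1 ≠ p.2 := fun e => hD p.1 (by have := hp.1; rwa [← e] at this)
    unfold f
    by_cases h1 : p.1 = v
    · have h2 : p.2 ≠ v := fun e => hne (h1.trans e.symm)
      rw [if_pos h1, h1, ext_self, ext_ne v τ _ h2, if_pos (Fin.castSucc_lt_last _)]
    · have h2 : p.2 = v := hp.2.resolve_left h1
      rw [if_neg h1, h2, ext_self, if_neg (not_lt.2 (Fin.le_last _))]
  · symm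
    refine Finset.prod_bij (fun p _ => ((p.1 : V), (p.2 : V))) ?_ ?_ ?_ ?_
    · intro p hp
      simp only [arcs, mem_filter, mem_univ, true_and] at hp ⊢
      exact ⟨hp, fun h => h.elim p.1.2 p.2.2⟩
    · intro p _ q _ e
      simp only [Prod.mk.injEq] at e
      exact Prod.ext (Subtype.ext e.1) (Subtype.ext e.2)
    · intro p hp
      simp only [arcs, mem_filter, mem_univ, true_and, not_or] at hp
      exact ⟨(⟨p.1, hp.2.1⟩, ⟨p.2, hp.2.2⟩), by simpa [arcs] using hp.1, rfl⟩
    · intro p _
      unfold f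
      simp only [ext_ne v τ _ p.1.2, ext_ne v τ _ p.2.2, Fin.castSucc_lt_castSucc_iff]

lemma S_last {D : V → V → Prop} (hD : ∀ u, ¬ D u u) {m : ℕ} (v : V) :
    |S D v (Fin.last m)| =
      |∑ τ : {u : V // u ≠ v} ≃ Fin m, s (fun a b : {u : V // u ≠ v} => D a b) τ| := by
  have : S D v (Fin.last m) = ∑ τ : {u : V // u ≠ v} ≃ Fin m, s D (ext' v τ) := by
    unfold S
    symm
    refine Finset.sum_bij (fun τ _ => ext' v τ) ?_ ?_ ?_ ?_
    · intro τ _
      simp [ext_self]
    · intro τ _ τ' _ e
      ext x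
      have := congrArg (fun σ : V ≃ Fin (m + 1) => σ x.1) e
      simp only [ext_ne v _ _ x.2, Fin.castSucc_inj] at this
      exact congrArg _ this
    · intro σ hσ
      simp only [mem_filter, mem_univ, true_and] at hσ
      refine ⟨(σ.subtypeEquiv (p := fun u => u ≠ v) (q := fun i => i ≠ Fin.last m) ?_).trans
        (finSuccAboveEquiv (Fin.last m)).symm, mem_univ _, ?_⟩
      · intro a
        rw [← hσ]; simp
      · ext1 x
        by_cases hx : x = v
        · rw [hx, ext_self, hσ]
        · rw [ext_ne v _ x hx]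
          have hl : σ x ≠ Fin.last m := fun e => hx (σ.injective (e.trans hσ.symm))
          simp [finSuccAboveEquiv_symm_apply_last]
    · intro τ _; rfl
  rw [this]
  simp only [s_ext hD]
  rw [← Finset.mul_sum, abs_mul, Finset.abs_prod]
  have : ∏ p ∈ (arcs D).filter (fun p => p.1 = v ∨ p.2 = v),
      |(if p.1 = v then (-1 : ℤ) else 1)| = 1 := by
    refine Finset.prod_eq_one fun p _ => ?_
    split_ifs <;> simp
  rw [this, one_mul]

end

theorem result {V : Type} [Fintype V] [Nonempty V] (G : SimpleGraph V)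
    (he : ∀ v, Even (G.degree v))
    (D : V → V → Prop) (hD : IsOrient G D)
    (E : ∀ v : V, {u : V // u ≠ v} → {u : V // u ≠ v} → Prop)
    (hE : ∀ v : V, IsOrient (G.comap (Subtype.val : {u : V // u ≠ v} → V)) (E v)) :
    nu D = ∑ v : V, nu (E v) ∧ ∀ v : V, nu D = Fintype.card V * nu (E v) := by
  obtain ⟨m, hm⟩ : ∃ m, Fintype.card V = m + 1 :=
    ⟨Fintype.card V - 1, by have := Fintype.card_pos (α := V); omega⟩
  have hirr : ∀ u, ¬ D u u := fun u hu => hD.2 u u hu hu
  have key : ∀ v : V, nu D = Fintype.card V * nu (E v) := by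
    intro v
    have hc : Fintype.card {u : V // u ≠ v} = m := by
      simp [Fintype.card_subtype_compl, hm]
    have hres : IsOrient (G.comap (Subtype.val : {u : V // u ≠ v} → V))
        (fun a b : {u : V // u ≠ v} => D a b) :=
      ⟨fun a b => hD.1 a b, fun a b => hD.2 a b⟩
    rw [indep hres (hE v)]
    unfold nu
    rw [eval_A D hm, eval_A _ hc, total hD he v, abs_mul, S_last hirr v, hm]
    have h0 : |((m : ℤ) + 1)| = ((m + 1 : ℕ) : ℤ) := by
      push_cast
      exact abs_of_nonneg (by positivity)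
    rw [h0]
    refine congrArg _ (congrArg _ (Finset.sum_congr ?_ fun _ _ => rfl))
    ext x
    simp
  refine ⟨?_, key⟩
  have hpos : (Fintype.card V : ℤ) ≠ 0 := by rw [hm]; push_cast; positivity
  apply mul_left_cancel₀ hpos
  rw [Finset.mul_sum]
  simp only [← key]
  simp

end Pool.Agent.Results.MP_f3603a_co.Del
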